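import Pool.Agent.SGY.Stmts

/-!
# Squad SGY, row GLU (helper22): gluing two placements
-/

set_option autoImplicit false

open Filter Topology

namespace Pool.Agent.SGY.H22

open Pool.Agent.SGE Pool.Agent.SGP Pool.Agent.SGY

theorem ev_pos {P : ℝ → ℝ} (hc : Continuous P) (h0 : 0 < P 0) :
    ∀ᶠ ε in 𝓝[>] (0 : ℝ), 0 < P ε :=
  (hc.continuousAt.eventually (lt_mem_nhds h0)).filter_mono nhdsWithin_le_nhds

theorem ev_pow (n : ℕ) {P : ℝ → ℝ} (hc : Continuous P) (h0 : 0 < P 0) :
    ∀ᶠ ε in 𝓝[>] (0 : ℝ), 0 < ε ^ n * P ε := by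
  filter_upwards [ev_pos hc h0, self_mem_nhdsWithin] with ε h1 h2
  exact mul_pos (pow_pos h2 n) h1

theorem o_rot (p q r : ℝ × ℝ) : o q r p = o p q r := by
  unfold o; ring

theorem bar3 (A B C x y z : ℝ × ℝ) : o x y z * (o A B C) ^ 2 =
    o A B x * (o B C y * o C A z - o C A y * o B C z)
    - o A B y * (o B C x * o C A z - o C A x * o B C z)
    + o A B z * (o B C x * o C A y - o C A x * o B C y) := by
  unfold o; ring

theorem barA (A B C x y : ℝ × ℝ) : o x y A * o A B C =
    o C A x * o A B y - o C A y * o A B x := by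
  unfold o; ring

theorem barB (A B C x y : ℝ × ℝ) : o x y B * o A B C =
    o B C y * o A B x - o B C x * o A B y := by
  unfold o; ring

/-- the placement of the cluster -/
def pt (a b c : ℝ × ℝ) (s t : ℝ) : ℝ × ℝ :=
  (c.1 + s * (b.1 - c.1) + t * (a.1 - c.1), c.2 + s * (b.2 - c.2) + t * (a.2 - c.2))

theorem pt_zero (a b c : ℝ × ℝ) : pt a b c 0 0 = c := by
  unfold pt
  ext <;> simp

theorem o_pt3 (a b c : ℝ × ℝ) (ε ux vx uy vy uz vz : ℝ) :
    o (pt a b c (ε ^ 2 * ux) (ε * vx)) (pt a b c (ε ^ 2 * uy) (ε * vy))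
      (pt a b c (ε ^ 2 * uz) (ε * vz)) =
    ε ^ 3 * (o a b c * ((vy - vx) * (uz - ux) - (uy - ux) * (vz - vx))) := by
  unfold o pt; ring

theorem o_ptA (a b c : ℝ × ℝ) (ε ux vx uy vy : ℝ) :
    o (pt a b c (ε ^ 2 * ux) (ε * vx)) (pt a b c (ε ^ 2 * uy) (ε * vy)) a =
    ε ^ 2 * (o a b c * ((ux - uy) - ε * (ux * vy - uy * vx))) := by
  unfold o pt; ring

theorem o_ptB (a b c Z : ℝ × ℝ) (ε ux vx uy vy : ℝ) :
    o (pt a b c (ε ^ 2 * ux) (ε * vx)) (pt a b c (ε ^ 2 * uy) (ε * vy)) Z =
    ε ^ 1 * ((vy - vx) * o c a Z + ε * ((uy - ux) * o c b Z +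
      (ε * o a b c) * ((uy - ux) * vx - (vy - vx) * ux))) := by
  unfold o pt; ring

theorem glu : GluStmt := by
  classical
  intro V _ a b c K R f₁ f₂ hab hac hbc haK hbK hcK h1 h2 hR hK
  let γ : V → ℝ := fun x => o (f₂ a) (f₂ b) (f₂ x)
  let α : V → ℝ := fun x => o (f₂ b) (f₂ c) (f₂ x)
  let β : V → ℝ := fun x => o (f₂ c) (f₂ a) (f₂ x)
  have hγ : ∀ x, x ∈ K ∪ {c} → 0 < γ x := by
    rintro x (hx | hx)
    · exact (hK x hx).1
    · rw [Set.mem_singleton_iff] at hx
      rw [hx]
      exact h2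
  let u : V → ℝ := fun x => β x / γ x
  let v : V → ℝ := fun x => α x / γ x
  let g : ℝ → V → ℝ × ℝ := fun ε x =>
    if x ∈ K ∪ {c} then pt (f₁ a) (f₁ b) (f₁ c) (ε ^ 2 * u x) (ε * v x) else f₁ x
  have hg1 : ∀ ε x, x ∈ K ∪ {c} →
      g ε x = pt (f₁ a) (f₁ b) (f₁ c) (ε ^ 2 * u x) (ε * v x) := fun ε x hx => if_pos hx
  have hg2 : ∀ ε x, x ∉ K ∪ {c} → g ε x = f₁ x := fun ε x hx => if_neg hx
  have hg0 : ∀ x, g 0 x = f₁ (th1 c K x) := by
    intro x
    by_cases hx : x ∈ K ∪ {c}
    · rw [hg1 0 x hx]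
      have e1 : (0 : ℝ) ^ 2 * u x = 0 := by ring
      rw [e1, zero_mul, pt_zero]
      have e2 : th1 c K x = c := by
        unfold th1
        rcases hx with hx | hx
        · rw [if_pos hx]
        · rw [Set.mem_singleton_iff] at hx
          rw [hx, ite_self]
      rw [e2]
    · rw [hg2 0 x hx]
      have e2 : th1 c K x = x := by
        unfold th1
        rw [if_neg (fun h => hx (Or.inl h))]
      rw [e2]
  have hgc : ∀ x, Continuous (fun ε => g ε x) := by
    intro x
    by_cases hx : x ∈ K ∪ {c}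
    · simp only [hg1 _ x hx, pt]
      fun_prop
    · simp only [hg2 _ x hx]
      exact continuous_const
  have hoc : ∀ x y z, Continuous (fun ε => o (g ε x) (g ε y) (g ε z)) := by
    intro x y z
    have hx := hgc x
    have hy := hgc y
    have hz := hgc z
    unfold o
    exact (((hy.fst.sub hx.fst).mul (hz.snd.sub hx.snd)).sub
      ((hy.snd.sub hx.snd).mul (hz.fst.sub hx.fst)))
  have hth2 : ∀ x, x ∈ K ∪ {c} → th2 a b c K x = x := by
    intro x hx
    unfold th2
    refine if_pos ?_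
    rcases hx with hx | hx
    · exact Or.inl hx
    · exact Or.inr (Or.inr hx)
  have hT : ∀ x y z, z ∈ R → x ∈ K ∪ {c} → y ∈ K ∪ {c} →
      0 < o (f₂ (th2 a b c K x)) (f₂ (th2 a b c K y)) (f₂ (th2 a b c K z)) →
      ∀ᶠ ε in 𝓝[>] (0 : ℝ), 0 < o (g ε x) (g ε y) (g ε z) := by
    intro x y z hzR hx hy hpos
    have gx := hγ x hx
    have gy := hγ y hy
    rw [hth2 x hx, hth2 y hy] at hpos
    by_cases hz : z ∈ K ∪ {c}
    · have gz := hγ z hz
      rw [hth2 z hz] at hpos
      have hb := bar3 (f₂ a) (f₂ b) (f₂ c) (f₂ x) (f₂ y) (f₂ z)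
      have hbr : 0 < o (f₁ a) (f₁ b) (f₁ c) *
          ((v y - v x) * (u z - u x) - (u y - u x) * (v z - v x)) := by
        refine mul_pos h1 ?_
        have e : (v y - v x) * (u z - u x) - (u y - u x) * (v z - v x) =
            o (f₂ x) (f₂ y) (f₂ z) * (o (f₂ a) (f₂ b) (f₂ c)) ^ 2 / (γ x * γ y * γ z) := by
          rw [hb]
          show (α y / γ y - α x / γ x) * (β z / γ z - β x / γ x) -
            (β y / γ y - β x / γ x) * (α z / γ z - α x / γ x) =
            (γ x * (α y * β z - β y * α z) - γ y * (α x * β z - β x * α z) +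
              γ z * (α x * β y - β x * α y)) / (γ x * γ y * γ z)
          have := gx.ne'
          have := gy.ne'
          have := gz.ne'
          field_simp
          ring
        rw [e]
        positivity
      have hev := ev_pow 3 (P := fun _ => o (f₁ a) (f₁ b) (f₁ c) *
          ((v y - v x) * (u z - u x) - (u y - u x) * (v z - v x))) continuous_const hbr
      filter_upwards [hev] with ε hε
      rw [hg1 ε x hx, hg1 ε y hy, hg1 ε z hz, o_pt3]
      exact hε
    · by_cases hza : z = a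
      · subst hza
        have e0 : th2 z b c K z = z := by
          unfold th2
          exact if_pos (Or.inr (Or.inl rfl))
        rw [e0] at hpos
        have hb := barA (f₂ z) (f₂ b) (f₂ c) (f₂ x) (f₂ y)
        have hbr : 0 < u x - u y := by
          have e : u x - u y =
              o (f₂ x) (f₂ y) (f₂ z) * o (f₂ z) (f₂ b) (f₂ c) / (γ x * γ y) := by
            rw [hb]
            show β x / γ x - β y / γ y = (β x * γ y - β y * γ x) / (γ x * γ y)
            have := gx.ne'
            have := gy.ne'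
            field_simp
          rw [e]
          positivity
        have hev := ev_pow 2 (P := fun ε => o (f₁ z) (f₁ b) (f₁ c) *
            ((u x - u y) - ε * (u x * v y - u y * v x))) (by fun_prop)
            (by
              show 0 < o (f₁ z) (f₁ b) (f₁ c) * ((u x - u y) - 0 * (u x * v y - u y * v x))
              rw [zero_mul, sub_zero]
              exact mul_pos h1 hbr)
        filter_upwards [hev] with ε hε
        rw [hg1 ε x hx, hg1 ε y hy, hg2 ε z hz, o_ptA]
        exact hε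
      · have hzK : z ∉ K := fun h => hz (Or.inl h)
        have hzc : z ≠ c := fun h => hz (Or.inr h)
        have e0 : th2 a b c K z = b := by
          unfold th2
          refine if_neg ?_
          rintro (h | h | h)
          · exact hzK h
          · exact hza h
          · exact hzc h
        rw [e0] at hpos
        have hb := barB (f₂ a) (f₂ b) (f₂ c) (f₂ x) (f₂ y)
        have hbr : 0 < v y - v x := by
          have e : v y - v x =
              o (f₂ x) (f₂ y) (f₂ b) * o (f₂ a) (f₂ b) (f₂ c) / (γ x * γ y) := by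
            rw [hb]
            show α y / γ y - α x / γ x = (α y * γ x - α x * γ y) / (γ x * γ y)
            have := gx.ne'
            have := gy.ne'
            field_simp
          rw [e]
          positivity
        have hZ := hR z hzR hzK hza hzc
        have hev := ev_pow 1 (P := fun ε => (v y - v x) * o (f₁ c) (f₁ a) (f₁ z) +
            ε * ((u y - u x) * o (f₁ c) (f₁ b) (f₁ z) + (ε * o (f₁ a) (f₁ b) (f₁ c)) *
              ((u y - u x) * v x - (v y - v x) * u x))) (by fun_prop)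
            (by
              show 0 < (v y - v x) * o (f₁ c) (f₁ a) (f₁ z) +
                0 * ((u y - u x) * o (f₁ c) (f₁ b) (f₁ z) + (0 * o (f₁ a) (f₁ b) (f₁ c)) *
                  ((u y - u x) * v x - (v y - v x) * u x))
              rw [zero_mul, add_zero]
              exact mul_pos hbr hZ)
        filter_upwards [hev] with ε hε
        rw [hg1 ε x hx, hg1 ε y hy, hg2 ε z hz, o_ptB]
        exact hε
  have hall : ∀ᶠ ε in 𝓝[>] (0 : ℝ), ∀ x y z, x ∈ R → y ∈ R → z ∈ R →
      (¬ Two (K ∪ {c}) x y z → 0 < o (f₁ (th1 c K x)) (f₁ (th1 c K y)) (f₁ (th1 c K z)) →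
        0 < o (g ε x) (g ε y) (g ε z)) ∧
      (Two (K ∪ {c}) x y z →
        0 < o (f₂ (th2 a b c K x)) (f₂ (th2 a b c K y)) (f₂ (th2 a b c K z)) →
        0 < o (g ε x) (g ε y) (g ε z)) := by
    rw [eventually_all]
    intro x
    rw [eventually_all]
    intro y
    rw [eventually_all]
    intro z
    by_cases hR3 : x ∈ R ∧ y ∈ R ∧ z ∈ R
    swap
    · exact Eventually.of_forall fun ε hx hy hz => (hR3 ⟨hx, hy, hz⟩).elim
    obtain ⟨hxR, hyR, hzR⟩ := hR3
    have hA : ∀ᶠ ε in 𝓝[>] (0 : ℝ),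
        0 < o (f₁ (th1 c K x)) (f₁ (th1 c K y)) (f₁ (th1 c K z)) →
        0 < o (g ε x) (g ε y) (g ε z) := by
      by_cases hp : 0 < o (f₁ (th1 c K x)) (f₁ (th1 c K y)) (f₁ (th1 c K z))
      · have h0 : 0 < o (g 0 x) (g 0 y) (g 0 z) := by
          rw [hg0, hg0, hg0]
          exact hp
        filter_upwards [ev_pos (hoc x y z) h0] with ε hε _
        exact hε
      · exact Eventually.of_forall fun ε h => (hp h).elim
    have hB : ∀ᶠ ε in 𝓝[>] (0 : ℝ), Two (K ∪ {c}) x y z →
        0 < o (f₂ (th2 a b c K x)) (f₂ (th2 a b c K y)) (f₂ (th2 a b c K z)) →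
        0 < o (g ε x) (g ε y) (g ε z) := by
      by_cases hp : Two (K ∪ {c}) x y z ∧
        0 < o (f₂ (th2 a b c K x)) (f₂ (th2 a b c K y)) (f₂ (th2 a b c K z))
      · obtain ⟨h2', hp⟩ := hp
        rcases h2' with ⟨hx, hy⟩ | ⟨hy, hz⟩ | ⟨hz, hx⟩
        · filter_upwards [hT x y z hzR hx hy hp] with ε hε _ _
          exact hε
        · rw [← o_rot] at hp
          filter_upwards [hT y z x hxR hy hz hp] with ε hε _ _
          rw [← o_rot]
          exact hε
        · rw [o_rot] at hp
          filter_upwards [hT z x y hyR hz hx hp] with ε hε _ _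
          rw [o_rot]
          exact hε
      · exact Eventually.of_forall fun ε h h' => (hp ⟨h, h'⟩).elim
    filter_upwards [hA, hB] with ε ha hb _ _ _
    exact ⟨fun _ => ha, hb⟩
  obtain ⟨ε, hε⟩ := hall.exists
  exact ⟨g ε, hε⟩

end Pool.Agent.SGY.H22
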